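import Pool.Agent.H87.EBK.Stmts

/-! Row CTR of the board `ebk`. -/

namespace Pool.EBK

theorem ctr : CTR := by
  rintro V G z x y H hzx hzy hxy hH ⟨B, hB1, hB2, hB3⟩
  have hxz : x ≠ z := hzx.ne'
  let B' : Fin 4 → Set V := fun i =>
    {u | (∃ h : u ≠ z, (⟨u, h⟩ : {u : V // u ≠ z}) ∈ B i) ∨
      (u = z ∧ (⟨x, hxz⟩ : {u : V // u ≠ z}) ∈ B i)}
  have hin : ∀ i (u : {u : V // u ≠ z}), u ∈ B i → u.1 ∈ B' i := fun i u hu => Or.inl ⟨u.2, hu⟩
  have hz : ∀ i, (⟨x, hxz⟩ : {u : V // u ≠ z}) ∈ B i → z ∈ B' i := fun i h => Or.inr ⟨rfl, h⟩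
  have hxB : ∀ i (u : {u : V // u ≠ z}), u ∈ B i → u.1 = x →
      (⟨x, hxz⟩ : {u : V // u ≠ z}) ∈ B i := by
    intro i u hu h
    have h1 : (⟨x, hxz⟩ : {u : V // u ≠ z}) = u := Subtype.ext h.symm
    rw [h1]
    exact hu
  refine ⟨B', ?_, ?_, ?_⟩
  · intro i
    have step : ∀ u w : B i, (H.induce (B i)).Adj u w →
        (G.induce (B' i)).Reachable ⟨u.1.1, hin i u.1 u.2⟩ ⟨w.1.1, hin i w.1 w.2⟩ := by
      intro u w huw
      have h1 : H.Adj u.1 w.1 := huw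
      rcases hH _ _ h1 with h2 | ⟨h2, h3⟩ | ⟨h2, h3⟩
      · have a1 : (G.induce (B' i)).Adj ⟨u.1.1, hin i u.1 u.2⟩ ⟨w.1.1, hin i w.1 w.2⟩ := h2
        exact a1.reachable
      · have hx' := hxB i u.1 u.2 h2
        have a1 : (G.induce (B' i)).Adj ⟨u.1.1, hin i u.1 u.2⟩ ⟨z, hz i hx'⟩ := by
          show G.Adj u.1.1 z
          rw [h2]
          exact hzx.symm
        have a2 : (G.induce (B' i)).Adj ⟨z, hz i hx'⟩ ⟨w.1.1, hin i w.1 w.2⟩ := by
          show G.Adj z w.1.1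
          rw [h3]
          exact hzy
        exact a1.reachable.trans a2.reachable
      · have hx' := hxB i w.1 w.2 h3
        have a1 : (G.induce (B' i)).Adj ⟨u.1.1, hin i u.1 u.2⟩ ⟨z, hz i hx'⟩ := by
          show G.Adj u.1.1 z
          rw [h2]
          exact hzy.symm
        have a2 : (G.induce (B' i)).Adj ⟨z, hz i hx'⟩ ⟨w.1.1, hin i w.1 w.2⟩ := by
          show G.Adj z w.1.1
          rw [h3]
          exact hzx
        exact a1.reachable.trans a2.reachable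
    have walk : ∀ u w : B i, (H.induce (B i)).Reachable u w →
        (G.induce (B' i)).Reachable ⟨u.1.1, hin i u.1 u.2⟩ ⟨w.1.1, hin i w.1 w.2⟩ := by
      rintro u w ⟨p⟩
      induction p with
      | nil => exact SimpleGraph.Reachable.refl _
      | cons h p ih => exact (step _ _ h).trans ih
    have hcon := hB1 i
    have base : ∀ a : B' i, ∃ u : B i,
        (G.induce (B' i)).Reachable a ⟨u.1.1, hin i u.1 u.2⟩ := by
      rintro ⟨a, ha⟩
      rcases ha with ⟨h, ha⟩ | ⟨h, ha⟩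
      · exact ⟨⟨⟨a, h⟩, ha⟩, SimpleGraph.Reachable.refl _⟩
      · refine ⟨⟨⟨x, hxz⟩, ha⟩, SimpleGraph.Adj.reachable ?_⟩
        show G.Adj a x
        rw [h]
        exact hzx
    obtain ⟨u0⟩ := hcon.nonempty
    have : Nonempty (B' i) := ⟨⟨u0.1.1, hin i u0.1 u0.2⟩⟩
    refine SimpleGraph.Connected.mk (fun a b => ?_)
    obtain ⟨u, hu⟩ := base a
    obtain ⟨w, hw⟩ := base b
    exact hu.trans ((walk u w (hcon.preconnected u w)).trans hw.symm)
  · intro i j hij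
    rw [Set.disjoint_left]
    intro a ha hb
    have hd := Set.disjoint_left.1 (hB2 i j hij)
    rcases ha with ⟨h, ha⟩ | ⟨h, ha⟩
    · rcases hb with ⟨h', hb⟩ | ⟨h', hb⟩
      · exact hd ha hb
      · exact h h'
    · rcases hb with ⟨h', hb⟩ | ⟨h', hb⟩
      · exact h' h
      · exact hd ha hb
  · intro i j hij
    obtain ⟨u, hu, w, hw, huw⟩ := hB3 i j hij
    rcases hH _ _ huw with h2 | ⟨h2, h3⟩ | ⟨h2, h3⟩
    · exact ⟨u.1, hin i u hu, w.1, hin j w hw, h2⟩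
    · refine ⟨z, hz i (hxB i u hu h2), w.1, hin j w hw, ?_⟩
      rw [h3]
      exact hzy
    · refine ⟨u.1, hin i u hu, z, hz j (hxB j w hw h3), ?_⟩
      rw [h2]
      exact hzy.symm

end Pool.EBK
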